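import Mathlib
import Pool.Agent.H197R3.SF.Stmts

set_option autoImplicit false

/-!
Task ExL of project H197-SF: the equation for symbols `1 + integrable part`.
-/

namespace Pool.Agent.H830R3.SF

open MeasureTheory Filter Topology Set Pool.Agent.H197R3.SF

/-- the one-sided weight -/
noncomputable def ex (ε t : ℝ) : ℂ := ((Real.exp (ε * t) : ℝ) : ℂ)

lemma ex_cont (ε : ℝ) : Continuous (ex ε) := by unfold ex; fun_prop

lemma wt_cont (σ : ℝ) : Continuous (wt σ) := by unfold wt; fun_prop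

lemma ch_cont (ω : ℝ) : Continuous (ch ω) := by unfold ch; fun_prop

lemma norm_ch (ω t : ℝ) : ‖ch ω t‖ = 1 := by
  unfold ch
  rw [Complex.norm_exp]
  simp

lemma norm_ex (ε t : ℝ) : ‖ex ε t‖ = Real.exp (ε * t) := by
  unfold ex
  rw [Complex.norm_real, Real.norm_of_nonneg (Real.exp_pos _).le]

lemma norm_wt (ε t : ℝ) : ‖wt ε t‖ = Real.exp (ε * |t|) := by
  unfold wt
  rw [Complex.norm_real, Real.norm_of_nonneg (Real.exp_pos _).le]

lemma ex_add (ε s t : ℝ) : ex ε (s + t) = ex ε s * ex ε t := by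
  unfold ex
  rw [mul_add, Real.exp_add, Complex.ofReal_mul]

lemma wt_neg_mul (σ t : ℝ) : wt σ t * wt (-σ) t = 1 := by
  unfold wt
  rw [← Complex.ofReal_mul, ← Real.exp_add]
  simp

lemma ex_neg_mul (σ t : ℝ) : ex σ t * ex (-σ) t = 1 := by
  unfold ex
  rw [← Complex.ofReal_mul, ← Real.exp_add]
  simp

lemma meas_of_wt {σ : ℝ} {f : ℝ → ℂ}
    (h : AEStronglyMeasurable (fun t => f t * wt σ t) volume) : AEStronglyMeasurable f volume := by
  have e : f = fun t => (f t * wt σ t) * wt (-σ) t := by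
    ext t
    rw [mul_assoc, wt_neg_mul, mul_one]
  rw [e]
  exact h.mul (wt_cont _).aestronglyMeasurable

lemma meas_of_ex {σ : ℝ} {f : ℝ → ℂ}
    (h : AEStronglyMeasurable (fun t => f t * ex σ t) volume) : AEStronglyMeasurable f volume := by
  have e : f = fun t => (f t * ex σ t) * ex (-σ) t := by
    ext t
    rw [mul_assoc, ex_neg_mul, mul_one]
  rw [e]
  exact h.mul (ex_cont _).aestronglyMeasurable

lemma dom {F G : ℝ → ℂ} (hG : Integrable G) (hF : AEStronglyMeasurable F volume)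
    (h : ∀ t, ‖F t‖ ≤ ‖G t‖) : Integrable F := hG.mono hF (ae_of_all _ h)

lemma wt_mono {σ σ' : ℝ} {f : ℝ → ℂ} (h : σ' ≤ σ) (hf : Integrable (fun t => f t * wt σ t)) :
    Integrable (fun t => f t * wt σ' t) := by
  have hm := meas_of_wt hf.1
  refine dom hf (hm.mul (wt_cont _).aestronglyMeasurable) (fun t => ?_)
  rw [norm_mul, norm_mul, norm_wt, norm_wt]
  gcongr

lemma wt_int {σ : ℝ} {f : ℝ → ℂ} (h : 0 ≤ σ) (hf : Integrable (fun t => f t * wt σ t)) :
    Integrable f := by
  have hm := meas_of_wt hf.1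
  refine dom hf hm (fun t => ?_)
  rw [norm_mul, norm_wt]
  refine le_mul_of_one_le_right (norm_nonneg _) (Real.one_le_exp (by positivity))

lemma ex_of_wt {σ ε : ℝ} {f : ℝ → ℂ} (h0 : 0 ≤ ε) (h : ε ≤ σ)
    (hf : Integrable (fun t => f t * wt σ t)) : Integrable (fun t => f t * ex ε t) := by
  have hm := meas_of_wt hf.1
  refine dom hf (hm.mul (ex_cont _).aestronglyMeasurable) (fun t => ?_)
  rw [norm_mul, norm_mul, norm_wt, norm_ex]
  refine mul_le_mul_of_nonneg_left (Real.exp_le_exp.2 ?_) (norm_nonneg _)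
  calc ε * t ≤ ε * |t| := mul_le_mul_of_nonneg_left (le_abs_self t) h0
    _ ≤ σ * |t| := mul_le_mul_of_nonneg_right h (abs_nonneg t)

lemma ch_int {f : ℝ → ℂ} (hf : Integrable f) (ω : ℝ) : Integrable (fun t => f t * ch ω t) := by
  refine dom hf (hf.1.mul (ch_cont _).aestronglyMeasurable) (fun t => ?_)
  rw [norm_mul, norm_ch, mul_one]

/-- truncation -/
noncomputable def tr (L : ℕ) (z : ℂ) : ℂ := if ‖z‖ ≤ L then z else 0

lemma tr_meas (L : ℕ) : Measurable (tr L) := by
  unfold tr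
  exact Measurable.ite (measurableSet_le measurable_norm measurable_const) measurable_id
    measurable_const

lemma norm_tr_le (L : ℕ) (z : ℂ) : ‖tr L z‖ ≤ ‖z‖ := by
  unfold tr
  split_ifs
  · exact le_rfl
  · simp

lemma norm_tr_le' (L : ℕ) (z : ℂ) : ‖tr L z‖ ≤ L := by
  unfold tr
  split_ifs with h
  · exact h
  · simp

lemma norm_sub_tr_le (L : ℕ) (z : ℂ) : ‖z - tr L z‖ ≤ ‖z‖ := by
  unfold tr
  split_ifs
  · simp
  · simp

lemma tr_ae {f : ℝ → ℂ} (hf : AEStronglyMeasurable f volume) (L : ℕ) :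
    AEStronglyMeasurable (fun t => tr L (f t)) volume :=
  ((tr_meas L).comp_aemeasurable hf.aemeasurable).aestronglyMeasurable

lemma tail_tendsto {ε : ℝ} {f : ℝ → ℂ} (hf : Integrable (fun t => f t * wt ε t)) :
    Tendsto (fun L : ℕ => ∫ s, ‖f s - tr L (f s)‖ * Real.exp (ε * |s|)) atTop (𝓝 0) := by
  have hm := meas_of_wt hf.1
  have h0 : (0 : ℝ) = ∫ _s : ℝ, (0 : ℝ) := by simp
  rw [h0]
  refine tendsto_integral_of_dominated_convergence (fun s => ‖f s * wt ε s‖) ?_ hf.norm ?_ ?_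
  · intro L
    exact ((hm.sub (tr_ae hm L)).norm).mul (by fun_prop)
  · intro L
    refine ae_of_all _ (fun s => ?_)
    rw [norm_mul, norm_norm, norm_mul, norm_wt, Real.norm_of_nonneg (Real.exp_pos _).le]
    gcongr
    exact norm_sub_tr_le L _
  · refine ae_of_all _ (fun s => ?_)
    refine tendsto_const_nhds.congr' ?_
    obtain ⟨L0, hL0⟩ := exists_nat_ge ‖f s‖
    filter_upwards [eventually_ge_atTop L0] with L hL
    have : ‖f s‖ ≤ L := hL0.trans (by exact_mod_cast hL)
    simp [tr, this]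

lemma tr_memLp {σ ε : ℝ} {f : ℝ → ℂ} (h0 : 0 ≤ ε) (h : 2 * ε ≤ σ)
    (hf : Integrable (fun t => f t * wt σ t)) (L : ℕ) :
    MemLp (fun t => tr L (f t) * ex ε t) 2 volume := by
  have hm := meas_of_wt hf.1
  have hm2 : AEStronglyMeasurable (fun t => tr L (f t) * ex ε t) volume :=
    (tr_ae hm L).mul (ex_cont _).aestronglyMeasurable
  rw [memLp_two_iff_integrable_sq_norm hm2]
  refine (hf.norm.const_mul (L : ℝ)).mono (hm2.norm.pow 2) (ae_of_all _ (fun t => ?_))
  rw [Real.norm_of_nonneg (by positivity), Real.norm_of_nonneg (by positivity), norm_mul, norm_mul,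
    norm_wt, norm_ex, mul_pow, sq, ← mul_assoc]
  have h1 : Real.exp (ε * t) ^ 2 ≤ Real.exp (σ * |t|) := by
    rw [← Real.exp_nat_mul]
    refine Real.exp_le_exp.2 ?_
    have h2 : t ≤ |t| := le_abs_self t
    have h3 : 0 ≤ |t| := abs_nonneg t
    push_cast
    nlinarith
  have h4 : ‖tr L (f t)‖ * ‖tr L (f t)‖ ≤ L * ‖f t‖ :=
    mul_le_mul (norm_tr_le' L _) (norm_tr_le L _) (norm_nonneg _) (by positivity)
  exact mul_le_mul h4 h1 (by positivity) (by positivity)

/-- the weighted convolution, with the roles swapped -/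
lemma conv_swap (ε : ℝ) (g b : ℝ → ℂ) (t : ℝ) :
    (∫ s, g s * b (t - s)) * ex ε t = ∫ s, (b s * ex ε s) * (g (t - s) * ex ε (t - s)) := by
  rw [← integral_sub_left_eq_self (fun s => g s * b (t - s)) volume t, ← integral_mul_const]
  refine integral_congr_ae (ae_of_all _ (fun s => ?_))
  simp only
  rw [show ex ε t = ex ε s * ex ε (t - s) by rw [← ex_add]; congr 1; ring, sub_sub_cancel]
  ring

lemma conv_memLp (hY : TaskYoung) {σ ε : ℝ} {f b : ℝ → ℂ} (h0 : 0 ≤ ε) (h : 2 * ε ≤ σ)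
    (hf : Integrable (fun t => f t * wt σ t)) (hb : Integrable (fun t => b t * ex ε t)) (L : ℕ) :
    MemLp (fun t => (∫ s, tr L (f s) * b (t - s)) * ex ε t) 2 volume := by
  have h1 := (hY (fun t => b t * ex ε t) (fun t => tr L (f t) * ex ε t) hb
    (tr_memLp h0 h hf L)).1
  refine h1.ae_eq (ae_of_all _ (fun t => ?_))
  simp only
  rw [conv_swap ε (fun s => tr L (f s)) b t]

lemma conv_ae {F G : ℝ → ℂ} (hF : Integrable F) (hG : Integrable G) :
    ∀ᵐ t, Integrable (fun s => F s * G (t - s)) :=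
  hF.ae_convolution_exists (ContinuousLinearMap.mul ℂ ℂ) hG

lemma one_sided {b : ℝ → ℂ} {ε : ℝ} (h0 : 0 ≤ ε) (hb0 : ∀ t < 0, b t = 0) (t : ℝ) :
    ‖b t‖ ≤ ‖b t * ex ε t‖ := by
  rcases lt_or_ge t 0 with h | h
  · rw [hb0 t h]; simp
  · rw [norm_mul, norm_ex]
    exact le_mul_of_one_le_right (norm_nonneg _) (Real.one_le_exp (by positivity))

lemma int_of_ex {b : ℝ → ℂ} {ε : ℝ} (h0 : 0 ≤ ε) (hb0 : ∀ t < 0, b t = 0)
    (hb : Integrable (fun t => b t * ex ε t)) : Integrable b :=
  dom hb (meas_of_ex hb.1) (one_sided h0 hb0)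

lemma memLp_of_ex {b : ℝ → ℂ} {ε : ℝ} (h0 : 0 ≤ ε) (hb0 : ∀ t < 0, b t = 0)
    (hb : MemLp (fun t => b t * ex ε t) 2 volume) : MemLp b 2 volume :=
  hb.mono (meas_of_ex hb.1) (ae_of_all _ (one_sided h0 hb0))

lemma wt_of_ex {b : ℝ → ℂ} {ε : ℝ} (h0 : 0 ≤ ε) (hb0 : ∀ t < 0, b t = 0)
    (hb : Integrable (fun t => b t * ex ε t)) : Integrable (fun t => b t * wt (ε / 2) t) := by
  refine dom hb ((meas_of_ex hb.1).mul (wt_cont _).aestronglyMeasurable) (fun t => ?_)
  rcases lt_or_ge t 0 with h | h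
  · rw [hb0 t h]; simp
  · rw [norm_mul, norm_mul, norm_ex, norm_wt, abs_of_nonneg h]
    gcongr
    linarith

lemma wt_of_ex2 {b : ℝ → ℂ} {ε : ℝ} (h0 : 0 < ε) (hb0 : ∀ t < 0, b t = 0)
    (hb : MemLp (fun t => b t * ex ε t) 2 volume) : Integrable (fun t => b t * wt (ε / 2) t) := by
  let ψ : ℝ → ℂ := (Ici (0 : ℝ)).indicator (fun t => ex (-(ε / 2)) t)
  have hψm : AEStronglyMeasurable ψ volume :=
    ((ex_cont _).aestronglyMeasurable).indicator measurableSet_Ici
  have hψ : MemLp ψ 2 volume := by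
    rw [memLp_two_iff_integrable_sq_norm hψm]
    have h1 : (fun t => ‖ψ t‖ ^ 2) = (Ici (0 : ℝ)).indicator (fun t => Real.exp (-ε * t)) := by
      ext t
      by_cases ht : t ∈ Ici (0 : ℝ)
      · simp only [ψ, indicator_of_mem ht, norm_ex]
        rw [← Real.exp_nat_mul]
        congr 1
        push_cast
        ring
      · simp only [ψ, indicator_of_notMem ht]
        simp
    rw [h1, integrable_indicator_iff measurableSet_Ici, integrableOn_Ici_iff_integrableOn_Ioi]
    exact exp_neg_integrableOn_Ioi 0 h0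
  have h2 := hb.integrable_mul hψ
  refine h2.congr (ae_of_all _ (fun t => ?_))
  simp only [Pi.mul_apply]
  by_cases ht : t ∈ Ici (0 : ℝ)
  · simp only [ψ, indicator_of_mem ht]
    rw [mul_assoc]
    congr 1
    unfold ex wt
    rw [← Complex.ofReal_mul, ← Real.exp_add, abs_of_nonneg (mem_Ici.1 ht)]
    congr 2
    ring
  · rw [hb0 t (by simpa using ht)]
    simp

/-- one column of the solution -/
lemma column (hY : TaskYoung) (hSm : TaskSm) {n : ℕ} {σ ε : ℝ} (hε : 0 < ε) (hεσ : 2 * ε ≤ σ)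
    (f : Fin n → Fin n → ℝ → ℂ) (hf : ∀ i j, Integrable (fun t => f i j t * wt σ t))
    (hsol : ∀ r : ℝ → Fin n → ℂ,
      (∀ i, MemLp (fun t => r t i * ((Real.exp (ε * t) : ℝ) : ℂ)) 2 volume) →
      ∃ h : ℝ → Fin n → ℂ, (∀ i, MemLp (fun t => h t i * ((Real.exp (ε * t) : ℝ) : ℂ)) 2 volume) ∧
        (∀ t < 0, h t = 0) ∧
        ∀ᵐ t : ℝ, 0 < t → ∀ i, h t i + ∑ j, ∫ s, f i j s * h (t - s) j = r t i) (k : Fin n) :
    ∃ h : ℝ → Fin n → ℂ, (∀ i, Integrable (fun t => h t i * wt (ε / 2) t)) ∧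
      (∀ t < 0, h t = 0) ∧
      ∀ᵐ t : ℝ, 0 < t → ∀ i, h t i + ∑ j, ∫ s, f i j s * h (t - s) j = - f i k t := by
  have hεσ' : ε ≤ σ := by linarith
  -- truncation level
  have hlim : Tendsto (fun L : ℕ => ∑ i, ∑ j, ∫ s, ‖f i j s - tr L (f i j s)‖ *
      Real.exp (ε * |s|)) atTop (𝓝 0) := by
    have : (0 : ℝ) = ∑ _i : Fin n, ∑ _j : Fin n, (0 : ℝ) := by simp
    rw [this]
    exact tendsto_finsetSum _ (fun i _ => tendsto_finsetSum _
      (fun j _ => tail_tendsto (wt_mono hεσ' (hf i j))))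
  obtain ⟨L, hL⟩ := (hlim.eventually (ge_mem_nhds (show (0 : ℝ) < 1 / 2 by norm_num))).exists
  have hfm : ∀ i j, AEStronglyMeasurable (f i j) volume := fun i j => meas_of_wt (hf i j).1
  have hfi : ∀ i j, Integrable (f i j) := fun i j => wt_int (by linarith) (hf i j)
  have htri : ∀ i j, Integrable (fun s => tr L (f i j s)) := fun i j =>
    dom (hfi i j) (tr_ae (hfm i j) L) (fun t => norm_tr_le L _)
  have hsub : ∀ i j, Integrable (fun s => f i j s - tr L (f i j s)) := fun i j =>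
    (hfi i j).sub (htri i j)
  have hsubw : ∀ i j, Integrable (fun s => (f i j s - tr L (f i j s)) * wt ε s) := fun i j => by
    refine dom (wt_mono hεσ' (hf i j)) (((hfm i j).sub (tr_ae (hfm i j) L)).mul
      (wt_cont _).aestronglyMeasurable) (fun t => ?_)
    rw [norm_mul, norm_mul]
    gcongr
    exact norm_sub_tr_le L _
  obtain ⟨b, hbi, hb0, hbe⟩ := hSm n ε (fun t => Matrix.of fun i j => f i j t - tr L (f i j t)) hε
    hsubw hL (fun t i => - f i k t) (fun i => by
      have h1 := (ex_of_wt hε.le hεσ' (hf i k)).neg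
      refine h1.congr (ae_of_all _ (fun t => ?_))
      simp only [Pi.neg_apply, ex, neg_mul])
  have hbi' : ∀ i, Integrable (fun t => b t i * ex ε t) := hbi
  have hb0' : ∀ i, ∀ t < 0, b t i = 0 := fun i t ht => by rw [hb0 t ht]; rfl
  set r : ℝ → Fin n → ℂ := fun t i => - ∑ j, ∫ s, tr L (f i j s) * b (t - s) j with hr
  have hr2 : ∀ i, MemLp (fun t => r t i * ((Real.exp (ε * t) : ℝ) : ℂ)) 2 volume := by
    intro i
    have h1 : MemLp (fun t => ∑ j, (∫ s, tr L (f i j s) * b (t - s) j) * ex ε t) 2 volume :=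
      memLp_finsetSum _ (fun j _ => conv_memLp hY hε.le hεσ (hf i j) (hbi' j) L)
    refine h1.neg.ae_eq (ae_of_all _ (fun t => ?_))
    simp only [Pi.neg_apply, hr, ex]
    rw [← Finset.sum_mul, neg_mul]
  obtain ⟨h', hh2, hh0, hhe⟩ := hsol r hr2
  have hh2' : ∀ i, MemLp (fun t => h' t i * ex ε t) 2 volume := hh2
  have hh0' : ∀ i, ∀ t < 0, h' t i = 0 := fun i t ht => by rw [hh0 t ht]; rfl
  refine ⟨fun t i => b t i + h' t i, fun i => ?_, fun t ht => ?_, ?_⟩
  · have h1 := (wt_of_ex hε.le (hb0' i) (hbi' i)).add (wt_of_ex2 hε (hh0' i) (hh2' i))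
    refine h1.congr (ae_of_all _ (fun t => ?_))
    simp only [Pi.add_apply]
    ring
  · ext i
    simp [hb0 t ht, hh0 t ht]
  · have hbL : ∀ j, Integrable (fun t => b t j) := fun j => int_of_ex hε.le (hb0' j) (hbi' j)
    have hA1 : ∀ᵐ t, ∀ i j, Integrable (fun s => tr L (f i j s) * b (t - s) j) := by
      refine ae_all_iff.2 (fun i => ae_all_iff.2 (fun j => ?_))
      exact conv_ae (F := fun s => tr L (f i j s)) (G := fun s => b s j) (htri i j) (hbL j)
    have hA2 : ∀ᵐ t, ∀ i j, Integrable (fun s => (f i j s - tr L (f i j s)) * b (t - s) j) := by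
      refine ae_all_iff.2 (fun i => ae_all_iff.2 (fun j => ?_))
      exact conv_ae (F := fun s => f i j s - tr L (f i j s)) (G := fun s => b s j)
        (hsub i j) (hbL j)
    have hA3 : ∀ᵐ t, ∀ i j, Integrable (fun s => f i j s * h' (t - s) j) := by
      refine ae_all_iff.2 (fun i => ae_all_iff.2 (fun j => ?_))
      exact (hY (f i j) (fun t => h' t j) (hfi i j) (memLp_of_ex hε.le (hh0' j) (hh2' j))).2.2
    filter_upwards [hbe, hhe, hA1, hA2, hA3] with t ht1 ht2 hB1 hB2 hB3 ht i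
    have e1 : ∀ j, ∫ s, f i j s * (b (t - s) j + h' (t - s) j) =
        (∫ s, tr L (f i j s) * b (t - s) j) + (∫ s, (f i j s - tr L (f i j s)) * b (t - s) j) +
          ∫ s, f i j s * h' (t - s) j := by
      intro j
      have e5 := integral_add (f := fun s => tr L (f i j s) * b (t - s) j +
        (f i j s - tr L (f i j s)) * b (t - s) j) (g := fun s => f i j s * h' (t - s) j)
        ((hB1 i j).add (hB2 i j)) (hB3 i j)
      rw [← integral_add (hB1 i j) (hB2 i j), ← e5]
      refine integral_congr_ae (ae_of_all _ (fun s => ?_))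
      simp only
      ring
    have e2 := ht1 ht i
    have e3 := ht2 ht i
    simp only [Matrix.of_apply] at e2
    simp only [e1, Finset.sum_add_distrib]
    simp only [hr] at e3
    linear_combination e2 + e3

theorem taskExL : TaskExL := by
  intro hLL hY hL2 hSm n σ c0 Ga hσ hc0 hGa hCo
  choose f c hR using hGa
  have hc : ∀ i j t, c i j t = 0 := fun i j t => (hR i j).cK t (notMem_empty t)
  have hGf : ∀ ω i j, Ga ω i j = ∫ t, f i j t * ch ω t := by
    intro ω i j
    have := (hR i j).eq ω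
    simpa [hc] using this
  have hf : ∀ i j, Integrable (fun t => f i j t * wt σ t) := fun i j => (hR i j).intg
  have hCo' : ∀ ω : ℝ, Coer c0 (1 + Matrix.of fun i j =>
      ∫ t, (Matrix.of fun i j => f i j t : Matrix (Fin n) (Fin n) ℂ) i j * ch ω t) := by
    intro ω
    have e : Ga ω = Matrix.of fun i j => ∫ t, f i j t * ch ω t := by
      ext i j
      exact hGf ω i j
    have := hCo ω
    rw [e] at this
    exact this
  obtain ⟨ε0, hε0, hε0σ, hsol⟩ := hL2 n σ c0 (fun t => Matrix.of fun i j => f i j t) hσ hc0 hf hCo'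
  set ε := min ε0 (σ / 2) with hεd
  have hε : 0 < ε := lt_min hε0 (by linarith)
  have hεε0 : ε ≤ ε0 := min_le_left _ _
  have hεσ : 2 * ε ≤ σ := by
    have := min_le_right ε0 (σ / 2)
    linarith
  choose h hhi hh0 hhe using fun k => column hY hSm hε hεσ f hf (hsol ε hε hεε0) k
  have hε2 : 0 < ε / 2 := by linarith
  have hf2 : ∀ i j, Integrable (fun t => f i j t * wt (ε / 2) t) := fun i j =>
    wt_mono (by linarith) (hf i j)
  have hconv := fun i j k => hLL (ε / 2) (f i j) (fun t => h k t j) hε2 (hf2 i j) (hhi k j)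
  set nn : Fin n → Fin n → ℝ → ℂ := fun i k t =>
    f i k t + h k t i + ∑ j, ∫ s, f i j s * h k (t - s) j with hnn
  have hni : ∀ i k, Integrable (fun t => nn i k t * wt (ε / 2) t) := by
    intro i k
    have h1 := ((hf2 i k).add (hhi k i)).add
      (integrable_finsetSum Finset.univ (fun j _ => (hconv i j k).1))
    refine h1.congr (ae_of_all _ (fun t => ?_))
    simp only [Pi.add_apply, hnn]
    rw [add_mul, add_mul, Finset.sum_mul]
  have hnint : ∀ i k (ω : ℝ), ∫ t, nn i k t * ch ω t =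
      Ga ω i k + (∫ t, h k t i * ch ω t) + ∑ j, Ga ω i j * ∫ t, h k t j * ch ω t := by
    intro i k ω
    have e0 : ∀ j, Integrable (fun t => (∫ s, f i j s * h k (t - s) j) * ch ω t) := fun j =>
      ch_int (wt_int hε2.le (hconv i j k).1) ω
    have e1 : (fun t => nn i k t * ch ω t) = fun t => (f i k t * ch ω t + h k t i * ch ω t) +
        ∑ j, (∫ s, f i j s * h k (t - s) j) * ch ω t := by
      ext t
      simp only [hnn]
      rw [add_mul, add_mul, Finset.sum_mul]
    have e2 := ch_int (wt_int hε2.le (hf2 i k)) ω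
    have e3 := ch_int (wt_int hε2.le (hhi k i)) ω
    have e5 := integral_add (f := fun t => f i k t * ch ω t + h k t i * ch ω t)
      (g := fun t => ∑ j, (∫ s, f i j s * h k (t - s) j) * ch ω t) (e2.add e3)
      (integrable_finsetSum _ (fun j _ => e0 j))
    rw [e1, e5, integral_add e2 e3, integral_finsetSum _ (fun j _ => e0 j), ← hGf]
    congr 1
    refine Finset.sum_congr rfl (fun j _ => ?_)
    rw [(hconv i j k).2 ω, ← hGf]
  have hae : ∀ i k, nn i k =ᵐ[volume] (Iic (0 : ℝ)).indicator (nn i k) := by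
    intro i k
    filter_upwards [hhe k] with t ht
    by_cases h0 : t ∈ Iic (0 : ℝ)
    · rw [indicator_of_mem h0]
    · rw [indicator_of_notMem h0]
      have := ht (by simpa using h0) i
      simp only [hnn]
      linear_combination this
  refine ⟨ε / 2, hε2, by linarith, fun ω => Matrix.of fun i k => ∫ t, h k t i * ch ω t,
    fun ω => Matrix.of fun i k => ∫ t, nn i k t * ch ω t, ?_, ?_, ?_⟩
  · intro i k
    refine ⟨fun t => h k t i, fun _ => 0, hhi k i, by simp, ?_, fun _ _ => rfl, ?_⟩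
    · intro t ht
      rw [hh0 k t (by simpa using ht)]
      rfl
    · intro ω
      simp
  · intro i k
    refine ⟨(Iic (0 : ℝ)).indicator (nn i k), fun _ => 0, ?_, by simp, ?_, fun _ _ => rfl, ?_⟩
    · refine (hni i k).congr ?_
      filter_upwards [hae i k] with t ht
      rw [← ht]
    · intro t ht
      exact indicator_of_notMem ht _
    · intro ω
      simp only [Matrix.of_apply, zero_mul, tsum_zero, add_zero]
      refine integral_congr_ae ?_
      filter_upwards [hae i k] with t ht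
      rw [← ht]
  · intro ω
    ext i k
    simp only [Matrix.mul_apply, Matrix.add_apply, Matrix.of_apply, add_mul, mul_add,
      Finset.sum_add_distrib, hnint]
    simp only [Matrix.one_apply, ite_mul, mul_ite, one_mul, mul_one, zero_mul, mul_zero,
      Finset.sum_ite_eq, Finset.sum_ite_eq', Finset.mem_univ, if_true]
    ring

end Pool.Agent.H830R3.SF
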